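import Pool.Agent.H7.TF.Targets
import Pool.Agent.H7.TF.Basic

set_option autoImplicit false

namespace Pool.Agent.H92.TF

open Equiv Pool.Agent.H7.TF

section

variable {P : Type} [Group P]

theorem ev_rotate_mem {N : Subgroup (FP P)} [hN : N.Normal] {X : List (Fin 3 × P)}
    (hX : ev X ∈ N) (k : ℕ) : ev (X.rotate k) ∈ N := by
  rw [List.rotate_eq_drop_append_take_mod, ev_append]
  have h1 : ev (X.take (k % X.length)) * ev (X.drop (k % X.length)) = ev X := by
    rw [← ev_append, List.take_append_drop]
  have h2 := hN.conj_mem _ hX (ev (X.take (k % X.length)))⁻¹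
  rw [← h1] at h2
  simpa [mul_assoc] using h2

theorem getElem?_rotate' (X : List (Fin 3 × P)) (k i : ℕ) (hi : i < X.length) :
    (X.rotate k)[i]? = X[(k + i) % X.length]? := by
  rw [List.getElem?_rotate hi, add_comm]

end

variable {P : Type} [Group P] {D : Type} {R : List (Rel P)} {σ θ : Perm D} {h : D → P}
  {ty : D → Fin 3} {kind : D → Option (ℕ × Bool × ℕ)}

theorem face_mem (hp : IsPic R σ θ h ty kind) {d : D} {j k : ℕ} {s : Bool}
    (hd : kind d = some (j, s, k)) : cycProd (σ * θ) (elt σ h ty) d ∈ NR R := by
  obtain ⟨r, hr⟩ := hp.exists_rel hd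
  have hrR : r ∈ R := List.mem_of_getElem? hr
  have hw : ev r.word ∈ NR R := ev_word_mem hrR
  set L := r.word.length with hL
  have hLp : 0 < L := word_length_pos r
  have hk : k < L := hp.lt hd hr
  rw [cycProd_eq _ (hp.minimalPeriod hd hr)]
  have hlet : ∀ i, r.word[pos L s k i]? = some (ty (((σ * θ) ^ i) d),
      if s then lab σ h (((σ * θ) ^ i) d) else (lab σ h (((σ * θ) ^ i) d))⁻¹) := fun i =>
    hp.letter (hp.kind_pow hd hr i) hr
  cases s
  · -- inverse relator
    simp only [Bool.false_eq_true, if_false] at hlet
    have h1 : (List.range L).map (fun i => elt σ h ty (((σ * θ) ^ i) d)) =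
        (invW (r.word.rotate (k + 1))).map (fun x => emb x.1 x.2) := by
      apply List.ext_getElem?
      intro i
      by_cases hi : i < L
      · rw [List.getElem?_map, List.getElem?_range hi, invW, List.getElem?_map,
          List.getElem?_reverse (by simpa using hi), List.getElem?_map]
        rw [List.length_map, List.length_rotate, getElem?_rotate' _ _ _ (by omega)]
        have h2 : (k + 1 + (r.word.length - 1 - i)) % r.word.length = pos L false k i := by
          rw [pos, if_neg (by simp), ← hL]
          have h3 : i ≤ L * i := Nat.le_mul_of_pos_left i hLp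
          have h4 : k + L * i - i + L = (k + 1 + (L - 1 - i)) + L * i := by omega
          rw [← Nat.add_mod_right (k + L * i - i) L, h4, Nat.add_mul_mod_self_left]
        rw [h2, hlet i]
        simp [elt]
      · rw [List.getElem?_eq_none (by simpa using Nat.le_of_not_lt hi),
          List.getElem?_eq_none (by simpa using Nat.le_of_not_lt hi)]
    rw [h1]
    change ev (invW (r.word.rotate (k + 1))) ∈ NR R
    rw [ev_invW]
    exact (NR R).inv_mem (ev_rotate_mem hw (k + 1))
  · simp only [if_true] at hlet
    have h1 : (List.range L).map (fun i => elt σ h ty (((σ * θ) ^ i) d)) =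
        (r.word.rotate k).map (fun x => emb x.1 x.2) := by
      apply List.ext_getElem?
      intro i
      by_cases hi : i < L
      · rw [List.getElem?_map, List.getElem?_range hi, List.getElem?_map,
          getElem?_rotate' _ _ _ hi]
        have h2 : (k + i) % r.word.length = pos L true k i := by
          rw [pos, if_pos rfl]
        rw [h2, hlet i]
        simp [elt]
      · rw [List.getElem?_eq_none (by simpa using Nat.le_of_not_lt hi),
          List.getElem?_eq_none (by simpa using Nat.le_of_not_lt hi)]
    rw [h1]
    exact ev_rotate_mem hw k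

/-- B10 -/
theorem B10 (hA7 : T_A7) : T_B10 := by
  intro P _ R D _ _ σ θ h ty kind d0 hp hd0 honly
  have hlab : lab σ (fun d => (QuotientGroup.mk' (NR R)) (emb (ty d) (h d))) =
      fun d => (QuotientGroup.mk' (NR R)) (elt σ h ty d) := by
    funext d
    rw [hp.elt_eq_lab d]
    simp only [lab, map_mul, map_inv]
  have key : ∀ d, cycProd (σ * θ)
      (lab σ (fun d => (QuotientGroup.mk' (NR R)) (emb (ty d) (h d)))) d = 1 ↔
      cycProd (σ * θ) (elt σ h ty) d ∈ NR R := by
    intro d
    rw [hlab, ← map_cycProd, ← MonoidHom.mem_ker, QuotientGroup.ker_mk']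
  rw [← key]
  refine hA7 D σ θ hp.planar (FP P ⧸ NR R) _ d0 ?_
  intro d hd hs
  rw [key]
  have hk : kind d ≠ none := fun h0 => hs (honly d hd h0)
  obtain ⟨⟨j, s, k⟩, hk⟩ := Option.ne_none_iff_exists'.1 hk
  exact face_mem hp hk

end Pool.Agent.H92.TF
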