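import Pool.Agent.H7.TF.Targets
import Pool.Agent.H7.TF.Basic

set_option autoImplicit false

namespace Pool.Agent.H92.TF

open Equiv Pool.Agent.H7.TF

/-- a picture with hole `X` and `n` relator corners -/
def PicN {P : Type} [Group P] (R : List (Rel P)) (X : List (Fin 3 × P)) (n : ℕ) : Prop :=
  ∃ (D : Type) (_ : Fintype D) (_ : DecidableEq D) (σ θ : Perm D) (h : D → P) (ty : D → Fin 3)
    (kind : D → Option (ℕ × Bool × ℕ)) (d0 : D),
    IsPic R σ θ h ty kind ∧ HoleAt σ θ h ty kind d0 X ∧ Nat.card {d // kind d ≠ none} = n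

theorem restrict (hA5 : T_A5) {P : Type} [Group P] {R : List (Rel P)} {X : List (Fin 3 × P)}
    {D : Type} [Fintype D] [DecidableEq D] {σ θ : Perm D} {h : D → P} {ty : D → Fin 3}
    {kind : D → Option (ℕ × Bool × ℕ)} {d0 : D} (hp : IsPic R σ θ h ty kind)
    (hh : HoleAt σ θ h ty kind d0 X) :
    ∃ (D' : Type) (_ : Fintype D') (_ : DecidableEq D') (σ' θ' : Perm D') (h' : D' → P)
    (ty' : D' → Fin 3) (kind' : D' → Option (ℕ × Bool × ℕ)) (d0' : D'),
    IsPic R σ' θ' h' ty' kind' ∧ HoleAt σ' θ' h' ty' kind' d0' X ∧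
    Nat.card {d // kind' d ≠ none} ≤ Nat.card {d // kind d ≠ none} ∧
    ∀ x y, conn σ' θ' x y := by
  classical
  obtain ⟨hα, hβ, hpl, hcon⟩ := hA5 D σ θ d0 hp.planar
  set K := {d // conn σ θ d0 d} with hK
  set σ' : Perm K := σ.subtypePerm hα with hσ'
  set θ' : Perm K := θ.subtypePerm hβ with hθ'
  have vσ : ∀ a : K, (σ' a : D) = σ a := fun a => rfl
  have vθ : ∀ a : K, (θ' a : D) = θ a := fun a => rfl
  have vm : ∀ a : K, ((σ' * θ') a : D) = (σ * θ) a := fun a => rfl
  have vp : ∀ (i : ℕ) (a : K), (((σ' * θ') ^ i) a : D) = ((σ * θ) ^ i) a := by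
    intro i
    induction i with
    | zero => intro a; rfl
    | succ i ih =>
      intro a
      have e1 : ((σ' * θ') ^ (i + 1)) a = (σ' * θ') (((σ' * θ') ^ i) a) := by
        rw [pow_succ']; rfl
      have e2 : ((σ * θ) ^ (i + 1)) (a : D) = (σ * θ) (((σ * θ) ^ i) a) := by
        rw [pow_succ']; rfl
      rw [e1, e2, vm, ih]
  have vi : ∀ a : K, ((σ'⁻¹ a : K) : D) = σ⁻¹ a := by
    intro a
    have h1 : σ' (σ'⁻¹ a) = a := by simp
    have h2 := congrArg Subtype.val h1
    rw [vσ] at h2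
    rw [← h2]
    simp
  have vlab : ∀ a : K, lab σ' (fun z : K => h z) a = lab σ h a := by
    intro a
    simp only [lab, vi]
  refine ⟨K, inferInstance, inferInstance, σ', θ', fun z => h z, fun z => ty z, fun z => kind z,
    ⟨d0, (conn σ θ).refl d0⟩, ⟨hpl, fun d => hp.hθ d, fun d => hp.tyσ d, ?_⟩, ?_, ?_, hcon⟩
  · intro d j s k hd
    obtain ⟨r, hr, h1, h2, h3⟩ := hp.rel d j s k hd
    refine ⟨r, hr, ?_, h2, ?_⟩
    · rw [vlab]; exact h1
    · apply Subtype.ext
      rw [vp]; exact h3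
  · refine ⟨hh.ne, ?_, ?_, ?_, hh.hole, ?_⟩
    · apply Subtype.ext
      rw [vp]; exact hh.per
    · intro i h1 h2 h3
      apply hh.mper i h1 h2
      have := congrArg Subtype.val h3
      rw [vp] at this; exact this
    · intro i hi
      rw [vlab, vp]
      exact hh.rd i hi
    · intro d _ hd
      have h1 := hh.only d d.2 hd
      obtain ⟨i, _, hi⟩ := h1.exists_pow_eq'
      refine ⟨i, ?_⟩
      apply Subtype.ext
      rw [zpow_natCast, vp]
      exact hi
  · refine Nat.card_le_card_of_injective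
      (fun d : {d : K // kind d ≠ none} => (⟨(d : K), d.2⟩ : {d : D // kind d ≠ none})) ?_
    intro a b hab
    apply Subtype.ext
    apply Subtype.ext
    exact Subtype.mk.inj hab

/-- B9 -/
theorem B9 (hA5 : T_A5) (hB4 : T_B4) (hB8 : T_B8) : T_B9 := by
  classical
  intro P _ R hF X hred hne hX
  obtain ⟨D0, i1, i2, σ0, θ0, h0, ty0, kind0, d00, hp0, hh0⟩ := hB8 P R hF X hred hne hX
  have hex : ∃ n, PicN R X n := ⟨_, D0, i1, i2, σ0, θ0, h0, ty0, kind0, d00, hp0, hh0, rfl⟩
  obtain ⟨D1, j1, j2, σ1, θ1, h1, ty1, kind1, d01, hp1, hh1, hn1⟩ := Nat.find_spec hex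
  have hmin : ∀ n, PicN R X n → Nat.find hex ≤ n := fun n hn => Nat.find_min' hex hn
  obtain ⟨D, k1, k2, σ, θ, h, ty, kind, d0, hp, hh, hle, hcon⟩ := restrict hA5 hp1 hh1
  rw [hn1] at hle
  refine ⟨D, k1, k2, σ, θ, h, ty, kind, d0, hp, hh, ?_, hcon⟩
  intro d d' j s k hs hd hd' heq
  obtain ⟨σ', θ', kind', hp', ha, hb, hc⟩ := hB4 P R D σ θ h ty kind d d' j s k hp hs hd hd' heq
  have hav : ∀ z, (σ * θ).SameCycle d0 z →
      ¬ ((σ * θ).SameCycle d z ∨ (σ * θ).SameCycle d' z) := by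
    intro z hz hor
    have hz0 : kind z = none := (hp.kind_none_iff hz).1 hh.hole
    rcases hor with h5 | h5
    · have := (hp.kind_none_iff h5).2 hz0
      rw [hd] at this; exact absurd this (by simp)
    · have := (hp.kind_none_iff h5).2 hz0
      rw [hd'] at this; exact absurd this (by simp)
  have hsc : ∀ i : ℕ, (σ * θ).SameCycle d0 (((σ * θ) ^ i) d0) := fun i => ⟨i, by simp⟩
  have hpow : ∀ i : ℕ, ((σ' * θ') ^ i) d0 = ((σ * θ) ^ i) d0 := fun i =>
    pow_congr (n := i) (fun j _ => (hb _ (hav _ (hsc j))).2.1) i le_rfl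
  have hh' : HoleAt σ' θ' h ty kind' d0 X := by
    refine ⟨hh.ne, ?_, ?_, ?_, ?_, ?_⟩
    · rw [hpow]; exact hh.per
    · intro i h3 h4
      rw [hpow]; exact hh.mper i h3 h4
    · intro i hi
      rw [hpow, (hb _ (hav _ (hsc i))).2.2]
      exact hh.rd i hi
    · rw [(hb _ (hav d0 ((Perm.SameCycle.refl _ _)))).1]
      exact hh.hole
    · intro z hz hz0
      by_cases hor : (σ * θ).SameCycle d z ∨ (σ * θ).SameCycle d' z
      · exfalso
        obtain ⟨_, e1, e2⟩ := ha z hor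
        have h3 : d0 = z := eq_of_isolated e1 e2 ((conn σ' θ').symm hz)
        rw [← h3] at hor
        exact hav d0 (Perm.SameCycle.refl _ _) hor
      · obtain ⟨e1, _, _⟩ := hb z hor
        rw [e1] at hz0
        obtain ⟨i, _, hi⟩ := (hh.only z (hc hz) hz0).exists_pow_eq'
        refine ⟨i, ?_⟩
        rw [zpow_natCast, hpow]
        exact hi
  have hlt : Nat.card {z // kind' z ≠ none} < Nat.card {z // kind z ≠ none} := by
    have hsub : {z | kind' z ≠ none} ⊂ {z | kind z ≠ none} := by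
      refine ⟨?_, ?_⟩
      · intro z hz
        by_cases hor : (σ * θ).SameCycle d z ∨ (σ * θ).SameCycle d' z
        · exact absurd (ha z hor).1 hz
        · have := (hb z hor).1
          rw [Set.mem_ofPred_eq] at hz ⊢
          rwa [this] at hz
      · intro hcon
        have h3 : d ∈ {z | kind z ≠ none} := by
          rw [Set.mem_ofPred_eq, hd]; simp
        exact (hcon h3) (ha d (Or.inl (Perm.SameCycle.refl _ _))).1
    exact Set.ncard_lt_ncard hsub (Set.toFinite _)
  have := hmin _ ⟨D, k1, k2, σ', θ', h, ty, kind', d0, hp', hh', rfl⟩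
  omega

end Pool.Agent.H92.TF
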