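import Pool.Agent.H7.TF.Targets
import Pool.Agent.H7.TF.Basic

set_option autoImplicit false

namespace Pool.Agent.H92.TF

open Equiv Pool.Agent.H7.TF

theorem kcut_eq_some {D : Type} {n : ℕ} {kind : D → Option (ℕ × Bool × ℕ)} {d : D} {j : ℕ}
    {s : Bool} {k : ℕ} : kcut n kind d = some (j, s, k) ↔ kind d = some (j, s, k) ∧ j < n := by
  unfold kcut
  cases hk : kind d with
  | none => simp
  | some x =>
    obtain ⟨j', s', k'⟩ := x
    simp only
    split_ifs with h
    · constructor
      · intro h1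
        refine ⟨h1, ?_⟩
        simp only [Option.some.injEq, Prod.mk.injEq] at h1
        omega
      · exact fun h1 => h1.1
    · constructor
      · intro h1; exact absurd h1 (by simp)
      · rintro ⟨h1, h2⟩
        simp only [Option.some.injEq, Prod.mk.injEq] at h1
        omega

/-- C1. the cut picture is a reduced picture over `R` -/
theorem C1 : T_C1 := by
  intro P _ c
  have hnot : ∀ d j s k, c.kind d = some (j, s, k) → j < c.R.length → d ∉ c.O := by
    rintro d j s k hd hj ⟨s', h | h⟩ <;>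
    · rw [hd] at h
      simp only [Option.some.injEq, Prod.mk.injEq] at h
      omega
  have hfix : ∀ d, d ∉ c.O → c.ω d = d := c.cut.off
  have hinv : ∀ d, d ∉ c.O → (c.ω * c.σ)⁻¹ d = c.σ⁻¹ d := by
    intro d hd
    have h1 : c.ω⁻¹ d = d := by
      rw [Perm.inv_eq_iff_eq]; exact (hfix d hd).symm
    rw [mul_inv_rev, Perm.mul_apply, h1]
  have hlab : ∀ d, d ∉ c.O → lab (c.ω * c.σ) c.h d = lab c.σ c.h d := by
    intro d hd
    rw [lab, lab, hinv d hd]
  refine ⟨⟨c.cut.planar, c.pic.hθ, ?_, ?_⟩, ?_, hlab⟩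
  · intro d
    rw [Perm.mul_apply, c.pic.ty_sameCycle (c.cut.same (c.σ d)), c.pic.tyσ]
  · intro d j s k hd
    obtain ⟨hd1, hj⟩ := kcut_eq_some.1 hd
    have hdO := hnot d j s k hd1 hj
    obtain ⟨r, hr, h1, h2, h3⟩ := c.pic.rel d j s k hd1
    refine ⟨r, ?_, ?_, ?_, ?_⟩
    · rwa [List.getElem?_append_left hj] at hr
    · rw [hlab d hdO]; exact h1
    · have h4 := hnot _ _ _ _ h2 hj
      rw [Perm.mul_apply, hfix _ h4]
      exact kcut_eq_some.2 ⟨h2, hj⟩
    · have hp : ∀ i, (c.ω * c.σ * c.θ) (((c.σ * c.θ) ^ i) d) = (c.σ * c.θ) (((c.σ * c.θ) ^ i) d) := by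
        intro i
        have h5 := c.pic.kind_pow hd1 hr (i + 1)
        rw [pow_succ', Perm.mul_apply] at h5
        have h6 := hnot _ _ _ _ h5 hj
        rw [mul_assoc, Perm.mul_apply, hfix _ h6]
      have := pow_congr (n := r.word.length) (fun i _ => hp i) r.word.length le_rfl
      rw [this]; exact h3
  · intro d d' j s k hs hd hd'
    obtain ⟨hd1, hj⟩ := kcut_eq_some.1 hd
    obtain ⟨hd1', _⟩ := kcut_eq_some.1 hd'
    have hdO := hnot d' _ _ _ hd1' hj
    rw [hinv d' hdO]
    refine c.red d d' j s k ?_ hd1 hd1'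
    have hc : conn (c.ω * c.σ) 1 ≤ Perm.SameCycle.setoid c.σ := by
      rw [conn_le_iff]
      refine ⟨fun x => ?_, fun x => (Perm.SameCycle.setoid c.σ).refl _⟩
      exact (sameCycle_self_apply c.σ x).trans (c.cut.same (c.σ x)).symm
    exact hc (conn_of_sameCycle_left hs)

end Pool.Agent.H92.TF
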